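import Pool.Agent.N993.WX.Stm
import Pool.Agent.N993.WU.Rep

set_option autoImplicit false

/-! Project WX (helper993), leaf CNTY: words in the generators `Y` with repetitions (helper806). -/

namespace Pool.Agent.N806.WX

open Pool.Agent.N993.WT (RW flip)
open Pool.Agent.N993.WU (NoRep)
open Pool.Agent.N993.WX

variable {n : ℕ} (Y : Finset (Fin n))

/-- the enumeration of `Y` -/
noncomputable def en (i : Fin Y.card) : Fin n := (Y.orderIsoOfFin rfl i : Fin n)

lemma en_mem (i : Fin Y.card) : en Y i ∈ Y := (Y.orderIsoOfFin rfl i).2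

lemma en_inj {i j : Fin Y.card} (h : en Y i = en Y j) : i = j := by
  unfold en at h
  exact (Y.orderIsoOfFin rfl).injective (Subtype.ext h)

lemma en_surj {x : Fin n} (h : x ∈ Y) : ∃ i, en Y i = x := by
  refine ⟨(Y.orderIsoOfFin rfl).symm ⟨x, h⟩, ?_⟩
  unfold en
  rw [OrderIso.apply_symm_apply]

/-- the letter -/
noncomputable def el (a : Fin Y.card × Bool) : Fin n × Bool := (en Y a.1, a.2)

lemma el_inj {a b : Fin Y.card × Bool} (h : el Y a = el Y b) : a = b := by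
  have h1 := congrArg Prod.fst h
  have h2 := congrArg Prod.snd h
  exact Prod.ext (en_inj Y h1) h2

lemma el_flip (a : Fin Y.card × Bool) : el Y (flip a) = flip (el Y a) := rfl

/-- the word -/
noncomputable def ew {k : ℕ} (g : RW Y.card k) : RW n k :=
  ⟨fun i => el Y (g.1 i), fun i j hij h => g.2 i j hij (el_inj Y (by rw [el_flip]; exact h))⟩

lemma ew_apply {k : ℕ} (g : RW Y.card k) (i : Fin k) : (ew Y g).1 i = el Y (g.1 i) := rfl

lemma ew_inj {k : ℕ} {g g' : RW Y.card k} (h : ew Y g = ew Y g') : g = g' := by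
  apply Subtype.ext
  funext i
  apply el_inj Y
  rw [← ew_apply, ← ew_apply, h]

lemma ew_surj {k : ℕ} {g : RW n k} (h : ∀ i, (g.1 i).1 ∈ Y) : ∃ g', ew Y g' = g := by
  choose f hf using fun i => en_surj Y (h i)
  refine ⟨⟨fun i => (f i, (g.1 i).2), fun i j hij h' => g.2 i j hij ?_⟩, ?_⟩
  · have h1 := congrArg (el Y) h'
    rw [el_flip] at h1
    have h2 : ∀ i, el Y (f i, (g.1 i).2) = g.1 i := fun i => Prod.ext (hf i) rfl
    rw [h2, h2] at h1
    exact h1
  · apply Subtype.ext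
    funext i
    exact Prod.ext (hf i) rfl

lemma noRep_iff {I : Type} {k : I → ℕ} (g : ∀ t, RW Y.card (k t)) (μ : ℕ) :
    NoRep (fun t => ew Y (g t)) μ ↔ NoRep g μ := by
  unfold NoRep
  refine forall_congr' fun t => forall_congr' fun t' => forall_congr' fun i =>
    forall_congr' fun i' => forall_congr' fun h => forall_congr' fun h' => and_congr ?_ ?_
  · refine imp_congr (forall_congr' fun j => forall_congr' fun hj => ?_) Iff.rfl
    rw [ew_apply, ew_apply]
    exact ⟨fun h => el_inj Y h, fun h => by rw [h]⟩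
  · refine not_congr (forall_congr' fun j => forall_congr' fun hj => ?_)
    rw [ew_apply, ew_apply, ← el_flip]
    exact ⟨fun h => el_inj Y h, fun h => by rw [h]⟩

theorem card_all {I : Type} (k : I → ℕ) :
    Nat.card {g : ∀ t, RW n (k t) // ∀ t i, ((g t).1 i).1 ∈ Y} =
      Nat.card (∀ t, RW Y.card (k t)) := by
  symm
  refine Nat.card_congr (Equiv.ofBijective
    (fun g : ∀ t, RW Y.card (k t) => (⟨fun t => ew Y (g t), fun t i => en_mem Y _⟩ :
      {g : ∀ t, RW n (k t) // ∀ t i, ((g t).1 i).1 ∈ Y})) ⟨?_, ?_⟩)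
  · intro g g' h
    funext t
    exact ew_inj Y (congrFun (congrArg Subtype.val h) t)
  · rintro ⟨g, hg⟩
    choose f hf using fun t => ew_surj Y (hg t)
    exact ⟨f, Subtype.ext (funext hf)⟩

theorem card_rep {I : Type} (k : I → ℕ) (μ : ℕ) :
    Nat.card {g : ∀ t, RW n (k t) // (∀ t i, ((g t).1 i).1 ∈ Y) ∧ ¬ NoRep g μ} =
      Nat.card {g : ∀ t, RW Y.card (k t) // ¬ NoRep g μ} := by
  symm
  refine Nat.card_congr (Equiv.ofBijective
    (fun g : {g : ∀ t, RW Y.card (k t) // ¬ NoRep g μ} =>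
      (⟨fun t => ew Y (g.1 t), fun t i => en_mem Y _, fun h => g.2 ((noRep_iff Y g.1 μ).1 h)⟩ :
      {g : ∀ t, RW n (k t) // (∀ t i, ((g t).1 i).1 ∈ Y) ∧ ¬ NoRep g μ})) ⟨?_, ?_⟩)
  · intro g g' h
    apply Subtype.ext
    funext t
    exact ew_inj Y (congrFun (congrArg Subtype.val h) t)
  · rintro ⟨g, hg, hr⟩
    choose f hf using fun t => ew_surj Y (hg t)
    have h1 : (fun t => ew Y (f t)) = g := funext hf
    refine ⟨⟨f, fun h => hr ?_⟩, Subtype.ext h1⟩
    rw [← h1]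
    exact (noRep_iff Y f μ).2 h

theorem t_cnty : S_CNTY := by
  intro n m c hc Y hY k μ hμ
  rw [card_rep, card_all]
  have h := Pool.Agent.N993.WU.rare hY hc k μ hμ
  have h3 : (3 : ℝ) ≤ 2 * (Y.card : ℝ) - 1 := by
    have : (2 : ℝ) ≤ Y.card := by exact_mod_cast hY
    linarith
  have h4 : (3 : ℝ) ^ μ ≤ (2 * (Y.card : ℝ) - 1) ^ μ := pow_le_pow_left₀ (by norm_num) h3 μ
  have h5 : 0 < (2 * (Y.card : ℝ) - 1) ^ μ := by positivity
  calc (Nat.card {g : ∀ t, RW Y.card (k t) // ¬ NoRep g μ} : ℝ) * 3 ^ μ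
      ≤ (Nat.card {g : ∀ t, RW Y.card (k t) // ¬ NoRep g μ} : ℝ) *
        (2 * (Y.card : ℝ) - 1) ^ μ := mul_le_mul_of_nonneg_left h4 (Nat.cast_nonneg _)
    _ ≤ (2 * (∑ t, (k t : ℝ)) ^ 2 / (2 * (Y.card : ℝ) - 1) ^ μ *
        Nat.card (∀ t, RW Y.card (k t))) * (2 * (Y.card : ℝ) - 1) ^ μ :=
        mul_le_mul_of_nonneg_right h h5.le
    _ = _ := by field_simp

end Pool.Agent.N806.WX
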